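import Pool.Agent.ZAR.Stmts

namespace Pool.Agent.ZAR.H92

open MvPowerSeries

lemma cc_subst {K : Type} [Field K] {σ τ : Type} [Finite σ] (a : σ → MvPowerSeries τ K)
    (ha : ∀ i, constantCoeff (a i) = 0) (f : MvPowerSeries σ K) :
    constantCoeff (subst a f) = constantCoeff f := by
  have hs := hasSubst_of_constantCoeff_zero ha
  have h := constantCoeff_subst_eq_zero hs ha (f := f - C (constantCoeff f)) (by simp)
  rw [subst_sub hs, subst_C, map_sub, constantCoeff_C] at h
  exact sub_eq_zero.mp h

lemma mem_span_X {K : Type} [Field K] (f : MvPowerSeries (Fin 1) K) (hf : constantCoeff f = 0) :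
    f ∈ (Ideal.span (Set.range X) : Ideal (MvPowerSeries (Fin 1) K)) := by
  have : (X 0 : MvPowerSeries (Fin 1) K) ∣ f := by
    rw [X_dvd_iff]
    intro m hm
    have : m = 0 := by
      apply Finsupp.ext
      intro i
      rw [Fin.eq_zero i, hm]; rfl
    rw [this]
    exact hf
  obtain ⟨g, rfl⟩ := this
  exact Ideal.mul_mem_right _ _ (Ideal.subset_span ⟨0, rfl⟩)

lemma cc_of_mem {K : Type} [Field K] (f : MvPowerSeries (Fin 1) K)
    (hf : f ∈ (Ideal.span (Set.range X) : Ideal (MvPowerSeries (Fin 1) K))) :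
    constantCoeff f = 0 := by
  have : (Ideal.span (Set.range X) : Ideal (MvPowerSeries (Fin 1) K)) ≤
      RingHom.ker (constantCoeff (σ := Fin 1) (R := K)) := by
    rw [Ideal.span_le]
    rintro _ ⟨i, rfl⟩
    simp
  exact this hf

/-- Implicit function in one variable. -/
lemma implicit (hNEW : NEWStmt) (hHAD : HADStmt) (L : Type) [Field L] (e : MvPowerSeries (Fin 2) L)
    (h0 : constantCoeff e = 0) (h1 : constantCoeff (pderiv L 1 e) ≠ 0) :
    ∃ tc : MvPowerSeries (Fin 1) L, constantCoeff tc = 0 ∧ subst ![X 0, tc] e = 0 := by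
  obtain ⟨q, hq⟩ := hHAD L (Fin 2) e
  set m : Ideal (MvPowerSeries (Fin 1) L) := Ideal.span (Set.range X) with hm
  have hcc : ∀ y : MvPowerSeries (Fin 1) L, constantCoeff y = 0 →
      ∀ i, constantCoeff ((![X 0, y] : Fin 2 → MvPowerSeries (Fin 1) L) i) = 0 := by
    intro y hy i
    fin_cases i
    · simp
    · simpa using hy
  have hqc : constantCoeff (q 1) = constantCoeff (pderiv L 1 e) := by
    have h := (hq (Fin 1) ![X 0, 0] ![X 0, 0] (hcc 0 (by simp)) (hcc 0 (by simp))).2 1
    have h' := congrArg (constantCoeff (σ := Fin 1) (R := L)) h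
    rw [cc_subst, cc_subst] at h'
    · exact h'
    · exact hcc 0 (by simp)
    · rintro (i | i)
      · exact hcc 0 (by simp) i
      · exact hcc 0 (by simp) i
  obtain ⟨y, hy1, hy2⟩ := hNEW (MvPowerSeries (Fin 1) L) m 1
    (fun y _ => subst ![X 0, y 0] e) (Matrix.of fun _ _ => C (constantCoeff (pderiv L 1 e))) (fun _ => 0)
    (by
      rw [Matrix.det_unique, Matrix.of_apply]
      exact (isUnit_iff_ne_zero.mpr h1).map (C (σ := Fin 1) (R := L)))
    (by
      intro i
      apply mem_span_X
      rw [cc_subst _ (hcc _ (by simp)), h0])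
    (by
      intro k y y' hy hy' hyy i
      have c1 : constantCoeff (y 0) = 0 := by simpa using cc_of_mem _ (hy 0)
      have c2 : constantCoeff (y' 0) = 0 := by simpa using cc_of_mem _ (hy' 0)
      have h := (hq (Fin 1) ![X 0, y 0] ![X 0, y' 0] (hcc _ c1) (hcc _ c2)).1
      rw [Fin.sum_univ_two] at h
      simp only [Matrix.cons_val_zero, Matrix.cons_val_one, sub_self, zero_mul, zero_add] at h
      have hM : (Matrix.mulVec (Matrix.of fun _ _ => C (constantCoeff (pderiv L 1 e))) (y - y')) i =
          C (constantCoeff (pderiv L 1 e)) * (y 0 - y' 0) := by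
        simp [Matrix.mulVec, dotProduct]
      rw [hM, h, pow_succ]
      have : (y 0 - y' 0) * subst (Sum.elim ![X 0, y 0] ![X 0, y' 0]) (q 1) -
          C (constantCoeff (pderiv L 1 e)) * (y 0 - y' 0) =
          (y 0 - y' 0) * (subst (Sum.elim ![X 0, y 0] ![X 0, y' 0]) (q 1) -
          C (constantCoeff (pderiv L 1 e))) := by ring
      rw [this]
      refine Ideal.mul_mem_mul (hyy 0) (mem_span_X _ ?_)
      rw [map_sub, constantCoeff_C, cc_subst, hqc, sub_self]
      rintro (j | j)
      · exact hcc _ c1 j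
      · exact hcc _ c2 j)
  refine ⟨y 0, by simpa using cc_of_mem _ (hy1 0), congrFun hy2 0⟩

theorem tcc (hNEW : NEWStmt) (hHAD : HADStmt) : TCCStmt := by
  intro L _ v1 v2 η η' hv1 hv2 hη hdvd
  obtain ⟨h, hh⟩ := hdvd
  -- the quotient
  set e : MvPowerSeries (Fin 2) L :=
    C v2⁻¹ * (X 0 * h - C v1 * X 1 * (2 * η - η')) with he
  have hC : (C v2 : MvPowerSeries (Fin 2) L) * C v2⁻¹ = 1 := by
    rw [← map_mul, mul_inv_cancel₀ hv2, map_one]
  have hdiff : η - η' = X 0 * e := by
    have : C v2 * (η - η') = C v2 * (X 0 * e) := by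
      rw [he]
      calc C v2 * (η - η') = X 0 * (X 0 * h - C v1 * X 1 * (2 * η - η')) := by
            linear_combination hh
        _ = (C v2 * C v2⁻¹) * (X 0 * (X 0 * h - C v1 * X 1 * (2 * η - η'))) := by
            rw [hC, one_mul]
        _ = _ := by ring
    have hne : (C v2 : MvPowerSeries (Fin 2) L) ≠ 0 := by
      intro h0
      rw [h0, zero_mul] at hC
      exact zero_ne_one hC
    exact mul_left_cancel₀ hne this
  have hηη : constantCoeff η' = constantCoeff η := by
    have := congrArg (constantCoeff (σ := Fin 2) (R := L)) hdiff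
    simp at this
    exact (sub_eq_zero.mp this).symm
  have he0 : constantCoeff e = 0 := by simp [he]
  have hde : pderiv L 1 e = C v2⁻¹ * (X 0 * pderiv L 1 h -
      C v1 * ((2 * η - η') + X 1 * pderiv L 1 (2 * η - η'))) := by
    rw [he, Derivation.leibniz, map_sub, Derivation.leibniz, Derivation.leibniz,
      Derivation.leibniz, pderiv_C, pderiv_C, pderiv_X_self, pderiv_X_of_ne (by decide)]
    simp only [smul_eq_mul]
    ring
  have he1 : constantCoeff (pderiv L 1 e) = - (v2⁻¹ * v1 * constantCoeff η) := by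
    rw [hde]
    simp only [map_mul, map_sub, map_add, constantCoeff_C, constantCoeff_X, hηη, map_ofNat]
    ring
  have he1' : constantCoeff (pderiv L 1 e) ≠ 0 := by
    rw [he1]
    exact neg_ne_zero.mpr (mul_ne_zero (mul_ne_zero (inv_ne_zero hv2) hv1) hη)
  obtain ⟨tc, ht0, ht1⟩ := implicit hNEW hHAD L e he0 he1'
  have hcc : ∀ i, constantCoeff ((![X 0, tc] : Fin 2 → MvPowerSeries (Fin 1) L) i) = 0 := by
    intro i
    fin_cases i
    · simp
    · simpa using ht0
  have hs := hasSubst_of_constantCoeff_zero hcc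
  refine ⟨tc, ht0, ?_, ?_⟩
  · have : subst ![X 0, tc] (η - η') = 0 := by
      rw [hdiff, subst_mul hs, ht1, mul_zero]
    rw [subst_sub hs] at this
    exact sub_eq_zero.mp this
  · have hp : pderiv L 1 (η - η') = X 0 * pderiv L 1 e := by
      rw [hdiff, Derivation.leibniz, pderiv_X_of_ne (by decide)]
      simp
    rw [hp, subst_mul hs, subst_X hs]
    refine mul_ne_zero ?_ ?_
    · simp only [Matrix.cons_val_zero]
      intro h0
      have h1 := congrArg (coeff (R := L) (Finsupp.single (0 : Fin 1) 1)) h0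
      rw [coeff_index_single_self_X, map_zero] at h1
      exact one_ne_zero h1
    · intro h0
      apply he1'
      have := congrArg (constantCoeff (σ := Fin 1) (R := L)) h0
      rwa [cc_subst _ hcc, map_zero] at this

end Pool.Agent.ZAR.H92
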